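import Mathlib

/-!
# Balls in the support of a harmonic function on `r`-sets: the mass doubles every `r` steps

Let `F` be a complex function on the `r`-subsets of a set with `2r` elements whose clique sums
`∑ a ∉ C, F (C ∪ {a})` vanish. If the down operator does not decrease the norm of any function `f`
with `f A * f Aᶜ = 0`, then the mass of `F` on balls around `S` doubles every `r` steps until the
complement of `S` is reached.
-/

set_option autoImplicit false

namespace Pool.Agent.H41Len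

open Finset

variable {E : Type*} [Fintype E] [DecidableEq E]

/-- One exchange inside the support of `F`. -/
def Step (F : Finset E → ℂ) (A A' : Finset E) : Prop :=
  ∃ a ∈ A, ∃ c, c ∉ A ∧ A' = insert c (A.erase a) ∧ F A' ≠ 0

/-- Paths with `n` steps. -/
inductive Reach (F : Finset E → ℂ) : ℕ → Finset E → Finset E → Prop
  | zero (A : Finset E) : Reach F 0 A A
  | succ {n : ℕ} {A B C : Finset E} : Reach F n A B → Step F B C → Reach F (n + 1) A C

theorem Reach.head {F : Finset E → ℂ} {n : ℕ} {A B C : Finset E} (h : Step F A B)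
    (h' : Reach F n B C) : Reach F (n + 1) A C := by
  induction h' with
  | zero A' => exact Reach.succ (Reach.zero _) h
  | succ _ hs ih => exact Reach.succ (ih h) hs

theorem Reach.trans {F : Finset E → ℂ} {m n : ℕ} {A B C : Finset E} (h : Reach F m A B)
    (h' : Reach F n B C) : Reach F (m + n) A C := by
  induction h' with
  | zero A' => exact h
  | succ _ hs ih => exact Reach.succ (ih h) hs

/-- The path as a function. -/
theorem Reach.fn {F : Finset E → ℂ} {n : ℕ} {A B : Finset E} (h : Reach F n A B) :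
    ∃ p : ℕ → Finset E, p 0 = A ∧ p n = B ∧ ∀ i < n, Step F (p i) (p (i + 1)) := by
  induction h with
  | zero A => exact ⟨fun _ => A, rfl, rfl, by simp⟩
  | @succ n A B C _ hs ih =>
    obtain ⟨p, h0, hn, hp⟩ := ih
    refine ⟨fun i => if i ≤ n then p i else C, by simp [h0], by simp, ?_⟩
    intro i hi
    rcases Nat.lt_or_ge i n with h | h
    · simp only [h.le, if_true, Nat.succ_le_of_lt h]
      exact hp i h
    · have : i = n := by omega
      subst this
      simp only [le_refl, if_true, hn]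
      rw [if_neg (by omega)]
      exact hs

theorem Step.card {F : Finset E → ℂ} {A A' : Finset E} (h : Step F A A') : A'.card = A.card := by
  obtain ⟨a, ha, c, hc, rfl, _⟩ := h
  rw [card_insert_of_notMem (fun h => hc (mem_of_mem_erase h)), card_erase_add_one ha]

/-- The mirror image of a step. -/
theorem Step.mirror {F : Finset E → ℂ} (hm : ∀ A, F A ≠ 0 → F Aᶜ ≠ 0) {A A' : Finset E}
    (hA : F A ≠ 0) (h : Step F A A') : Step F A'ᶜ Aᶜ := by
  obtain ⟨a, ha, c, hc, rfl, h0⟩ := h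
  have hac : a ≠ c := fun h => hc (h ▸ ha)
  refine ⟨a, ?_, c, ?_, ?_, hm A hA⟩
  · simp [hac]
  · simp
  · ext x
    simp only [mem_compl, mem_insert, mem_erase, not_or, not_and_or, not_not]
    constructor
    · intro hx
      by_cases hxc : x = c
      · exact Or.inl hxc
      · exact Or.inr ⟨fun h => hx (h ▸ ha), hxc, Or.inr hx⟩
    · rintro (hx | ⟨h1, h2, h3⟩)
      · exact hx ▸ hc
      · rcases h3 with h3 | h3
        · exact absurd h3 h1
        · exact h3

theorem Reach.ne_zero {F : Finset E → ℂ} {n : ℕ} {A B : Finset E} (hA : F A ≠ 0)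
    (h : Reach F n A B) : F B ≠ 0 := by
  cases h with
  | zero _ => exact hA
  | succ _ hs =>
    obtain ⟨_, _, _, _, _, h0⟩ := hs
    exact h0

theorem Reach.mirror {F : Finset E → ℂ} (hm : ∀ A, F A ≠ 0 → F Aᶜ ≠ 0) {n : ℕ}
    {A B : Finset E} (hA : F A ≠ 0) (h : Reach F n A B) : Reach F n Bᶜ Aᶜ := by
  induction h with
  | zero _ => exact Reach.zero _
  | @succ n A B C h' hs ih =>
    exact Reach.head (hs.mirror hm (h'.ne_zero hA)) (ih hA)

open Classical in
/-- The ball of radius `n` about `S` in the support of `F`. -/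
noncomputable def ball (F : Finset E → ℂ) (S : Finset E) : ℕ → Finset (Finset E)
  | 0 => {S}
  | n + 1 => ball F S n ∪ univ.filter (fun A' => ∃ A ∈ ball F S n, Step F A A')

theorem ball_mono_succ (F : Finset E → ℂ) (S : Finset E) (n : ℕ) :
    ball F S n ⊆ ball F S (n + 1) := by
  rw [ball]
  exact subset_union_left

theorem ball_mono (F : Finset E → ℂ) (S : Finset E) {m n : ℕ} (h : m ≤ n) :
    ball F S m ⊆ ball F S n := by
  induction h with
  | refl => exact Subset.refl _
  | step _ ih => exact ih.trans (ball_mono_succ F S _)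

theorem mem_ball_step {F : Finset E → ℂ} {S A A' : Finset E} {n : ℕ} (h : A ∈ ball F S n)
    (h' : Step F A A') : A' ∈ ball F S (n + 1) := by
  classical
  rw [ball]
  exact mem_union_right _ (mem_filter.2 ⟨mem_univ _, A, h, h'⟩)

theorem reach_of_mem_ball {F : Finset E → ℂ} {S : Finset E} {n : ℕ} :
    ∀ {A : Finset E}, A ∈ ball F S n → ∃ m ≤ n, Reach F m S A := by
  classical
  induction n with
  | zero =>
    intro A hA
    rw [ball, mem_singleton] at hA
    exact ⟨0, le_rfl, hA ▸ Reach.zero _⟩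
  | succ n ih =>
    intro A hA
    rw [ball, mem_union, mem_filter] at hA
    rcases hA with hA | ⟨_, B, hB, hs⟩
    · obtain ⟨m, hm, h⟩ := ih hA
      exact ⟨m, by omega, h⟩
    · obtain ⟨m, hm, h⟩ := ih hB
      exact ⟨m + 1, by omega, h.succ hs⟩

theorem Reach.card {F : Finset E → ℂ} {n : ℕ} {A B : Finset E} (h : Reach F n A B) :
    B.card = A.card := by
  induction h with
  | zero _ => rfl
  | succ _ hs ih => rw [hs.card, ih]

/-- Double counting of the pairs `(C, a)`. -/
theorem sum_cliques (r : ℕ) (g : Finset E → ℝ) :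
    ∑ C ∈ univ.filter (fun C : Finset E => C.card + 1 = r), ∑ a ∈ Cᶜ, g (insert a C) =
      r * ∑ A ∈ univ.filter (fun A : Finset E => A.card = r), g A := by
  have f1 : (r : ℝ) * ∑ A ∈ univ.filter (fun A : Finset E => A.card = r), g A =
      ∑ A ∈ univ.filter (fun A : Finset E => A.card = r), ∑ _a ∈ A, g A := by
    rw [Finset.mul_sum]
    refine Finset.sum_congr rfl fun A hA => ?_
    rw [Finset.sum_const, (mem_filter.1 hA).2, nsmul_eq_mul]
  rw [f1, Finset.sum_sigma', Finset.sum_sigma']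
  refine Finset.sum_bij' (fun p _ => ⟨insert p.2 p.1, p.2⟩) (fun p _ => ⟨p.1.erase p.2, p.2⟩)
    ?_ ?_ ?_ ?_ ?_
  · rintro ⟨C, a⟩ hp
    simp only [mem_sigma, mem_filter, mem_univ, true_and, mem_compl] at hp ⊢
    exact ⟨by rw [card_insert_of_notMem hp.2, hp.1], mem_insert_self _ _⟩
  · rintro ⟨A, a⟩ hp
    simp only [mem_sigma, mem_filter, mem_univ, true_and, mem_compl] at hp ⊢
    exact ⟨by rw [card_erase_add_one hp.2, hp.1], notMem_erase _ _⟩
  · rintro ⟨C, a⟩ hp
    simp only [mem_sigma, mem_filter, mem_univ, true_and, mem_compl] at hp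
    simp only [erase_insert hp.2]
  · rintro ⟨A, a⟩ hp
    simp only [mem_sigma, mem_filter, mem_univ, true_and] at hp
    simp only [insert_erase hp.2]
  · rintro ⟨C, a⟩ hp
    rfl

/-- The restriction of `F` to a ball. -/
noncomputable def cut (F : Finset E → ℂ) (S : Finset E) (j : ℕ) (A : Finset E) : ℂ :=
  if A ∈ ball F S j then F A else 0

/-- Two members of a clique in the support of `F` are one step apart. -/
theorem clique_step {F : Finset E → ℂ} {C : Finset E} {a c : E} (ha : a ∉ C) (hc : c ∉ C)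
    (hac : a ≠ c) (h0 : F (insert c C) ≠ 0) : Step F (insert a C) (insert c C) := by
  refine ⟨a, mem_insert_self _ _, c, ?_, ?_, h0⟩
  · simp [hac.symm, hc]
  · rw [erase_insert ha]

/-- If a member of a clique is in the ball of radius `j`, all members of the clique in the support
are in the ball of radius `j + 1`. -/
theorem clique_ball {F : Finset E → ℂ} {S C : Finset E} {j : ℕ} {a c : E} (ha : a ∉ C)
    (hc : c ∉ C) (h : insert a C ∈ ball F S j) (h0 : F (insert c C) ≠ 0) :
    insert c C ∈ ball F S (j + 1) := by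
  by_cases hac : a = c
  · subst hac
    exact ball_mono_succ F S j h
  · exact mem_ball_step h (clique_step ha hc hac h0)

/-- The sphere sums: if the sum of the cut function over a clique does not vanish, the clique has
members inside and outside of the ball. -/
theorem cut_inside {F : Finset E → ℂ} {S C : Finset E} {j : ℕ}
    (h : ∑ a ∈ Cᶜ, cut F S j (insert a C) ≠ 0) : ∃ a, a ∉ C ∧ insert a C ∈ ball F S j := by
  obtain ⟨a, ha, h1⟩ := Finset.exists_ne_zero_of_sum_ne_zero h
  refine ⟨a, mem_compl.1 ha, ?_⟩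
  by_contra hc
  exact h1 (if_neg hc)

theorem cut_later {F : Finset E → ℂ} {S C : Finset E} {j j' : ℕ} (hjj : j < j')
    (hF : ∑ a ∈ Cᶜ, F (insert a C) = 0)
    (h : ∃ a, a ∉ C ∧ insert a C ∈ ball F S j) :
    ∑ a ∈ Cᶜ, cut F S j' (insert a C) = 0 := by
  obtain ⟨a, ha, hab⟩ := h
  rw [← hF]
  refine Finset.sum_congr rfl fun c hc => ?_
  rw [mem_compl] at hc
  by_cases h0 : F (insert c C) = 0
  · rw [cut, h0, ite_self]
  · exact if_pos (ball_mono F S (by omega : j + 1 ≤ j') (clique_ball ha hc hab h0))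

/-- The square of the sum over a clique of all the cut functions. -/
theorem sq_sum {F : Finset E → ℂ} {S C : Finset E} (k r : ℕ)
    (hF : ∑ a ∈ Cᶜ, F (insert a C) = 0) :
    ‖∑ a ∈ Cᶜ, ∑ j ∈ Finset.Ico k (k + r), cut F S j (insert a C)‖ ^ 2 =
      ∑ j ∈ Finset.Ico k (k + r), ‖∑ a ∈ Cᶜ, cut F S j (insert a C)‖ ^ 2 := by
  rw [Finset.sum_comm]
  by_cases h : ∃ j ∈ Finset.Ico k (k + r), ∑ a ∈ Cᶜ, cut F S j (insert a C) ≠ 0
  · obtain ⟨j, hj, hne⟩ := h
    have hz : ∀ j' ∈ Finset.Ico k (k + r), j' ≠ j → ∑ a ∈ Cᶜ, cut F S j' (insert a C) = 0 := by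
      intro j' hj' hjj
      rcases Nat.lt_or_gt_of_ne hjj with h | h
      · by_contra hc
        exact hne (cut_later h hF (cut_inside hc))
      · exact cut_later h hF (cut_inside hne)
    rw [Finset.sum_eq_single_of_mem j hj hz, Finset.sum_eq_single_of_mem j hj]
    intro j' hj' hjj
    rw [hz j' hj' hjj, norm_zero]
    simp
  · push Not at h
    rw [Finset.sum_eq_zero h, Finset.sum_eq_zero fun j hj => by rw [h j hj]; simp]
    simp

/-- The bound for one sphere and one clique. -/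
theorem sphere_bound {F : Finset E → ℂ} {S C : Finset E} (j r : ℕ)
    (hC : Cᶜ.card = r + 1)
    (hF : ∑ a ∈ Cᶜ, F (insert a C) = 0) :
    ‖∑ a ∈ Cᶜ, cut F S j (insert a C)‖ ^ 2 ≤
      r * ∑ a ∈ Cᶜ, (if insert a C ∈ ball F S (j + 1) ∧ insert a C ∉ ball F S j then
        ‖F (insert a C)‖ ^ 2 else 0) := by
  classical
  have hnn : 0 ≤ ∑ a ∈ Cᶜ, (if insert a C ∈ ball F S (j + 1) ∧ insert a C ∉ ball F S j then
      ‖F (insert a C)‖ ^ 2 else 0) := Finset.sum_nonneg fun a _ => by positivity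
  by_cases h : ∑ a ∈ Cᶜ, cut F S j (insert a C) = 0
  · rw [h, norm_zero]
    have : (0 : ℝ) ≤ r := Nat.cast_nonneg r
    have h2 := mul_nonneg this hnn
    simpa using h2
  obtain ⟨a₀, ha₀, hab⟩ := cut_inside h
  set T := Cᶜ.filter (fun a => insert a C ∉ ball F S j) with hT
  have hTc : T.card ≤ r := by
    have h1 : T ⊆ Cᶜ.erase a₀ := by
      intro a ha
      rw [hT, mem_filter] at ha
      refine mem_erase.2 ⟨fun h => ha.2 (h ▸ hab), ha.1⟩
    have h2 := card_le_card h1
    rw [card_erase_of_mem (mem_compl.2 ha₀), hC] at h2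
    simpa using h2
  have e1 : ∑ a ∈ Cᶜ, cut F S j (insert a C) = - ∑ a ∈ T, F (insert a C) := by
    rw [eq_neg_iff_add_eq_zero, ← hF, hT, Finset.sum_filter, ← Finset.sum_add_distrib]
    refine Finset.sum_congr rfl fun a _ => ?_
    rw [cut]
    by_cases h1 : insert a C ∈ ball F S j
    · rw [if_pos h1, if_neg (fun h2 => h2 h1), add_zero]
    · rw [if_neg h1, if_pos h1, zero_add]
  rw [e1, norm_neg]
  have h3 : ‖∑ a ∈ T, F (insert a C)‖ ^ 2 ≤ T.card * ∑ a ∈ T, ‖F (insert a C)‖ ^ 2 := by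
    calc ‖∑ a ∈ T, F (insert a C)‖ ^ 2 ≤ (∑ a ∈ T, ‖F (insert a C)‖) ^ 2 :=
          pow_le_pow_left₀ (norm_nonneg _) (norm_sum_le _ _) 2
      _ ≤ T.card * ∑ a ∈ T, ‖F (insert a C)‖ ^ 2 := sq_sum_le_card_mul_sum_sq
  have h4 : ∑ a ∈ T, ‖F (insert a C)‖ ^ 2 ≤ ∑ a ∈ Cᶜ, (if insert a C ∈ ball F S (j + 1) ∧
      insert a C ∉ ball F S j then ‖F (insert a C)‖ ^ 2 else 0) := by
    rw [hT, Finset.sum_filter]
    refine Finset.sum_le_sum fun a ha => ?_
    by_cases h1 : insert a C ∈ ball F S j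
    · rw [if_neg (fun h2 => h2 h1)]
      positivity
    · rw [if_pos h1]
      by_cases h0 : F (insert a C) = 0
      · rw [h0]
        simp
      · rw [if_pos ⟨clique_ball ha₀ (mem_compl.1 ha) hab h0, h1⟩]
  have h5 : (0 : ℝ) ≤ ∑ a ∈ T, ‖F (insert a C)‖ ^ 2 := Finset.sum_nonneg fun a _ => by positivity
  have h6 : (T.card : ℝ) ≤ r := by exact_mod_cast hTc
  calc ‖∑ a ∈ T, F (insert a C)‖ ^ 2 ≤ T.card * ∑ a ∈ T, ‖F (insert a C)‖ ^ 2 := h3
    _ ≤ r * ∑ a ∈ T, ‖F (insert a C)‖ ^ 2 := mul_le_mul_of_nonneg_right h6 h5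
    _ ≤ _ := mul_le_mul_of_nonneg_left h4 (Nat.cast_nonneg r)

/-- The mass of a ball. -/
noncomputable def mass (F : Finset E → ℂ) (S : Finset E) (j : ℕ) : ℝ :=
  ∑ A ∈ ball F S j, ‖F A‖ ^ 2

/-- **Doubling.** -/
theorem doubling {F : Finset E → ℂ} {S : Finset E} {r : ℕ} (hr : 0 < r) (hSr : S.card = r)
    (hE : Fintype.card E = 2 * r)
    (hF : ∀ C, C.card + 1 = r → ∑ a ∈ Cᶜ, F (insert a C) = 0)
    (hm : ∀ A, F A ≠ 0 → F Aᶜ ≠ 0)
    (hstar : ∀ f : Finset E → ℂ, (∀ A, f A ≠ 0 → A.card = r) → (∀ A, f A = 0 ∨ f Aᶜ = 0) →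
      ∑ A ∈ univ.filter (fun A : Finset E => A.card = r), ‖f A‖ ^ 2 ≤
        ∑ C ∈ univ.filter (fun C : Finset E => C.card + 1 = r), ‖∑ a ∈ Cᶜ, f (insert a C)‖ ^ 2)
    (hS : F S ≠ 0) (k : ℕ) (hk : ∀ n ≤ 2 * (k + r), ¬ Reach F n S Sᶜ) :
    2 * mass F S k ≤ mass F S (k + r) := by
  classical
  set f : Finset E → ℂ := fun A => ∑ j ∈ Finset.Ico k (k + r), cut F S j A with hf
  have hcardball : ∀ j, ∀ A ∈ ball F S j, A.card = r := by
    intro j A hA
    obtain ⟨m, _, h⟩ := reach_of_mem_ball hA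
    rw [h.card, hSr]
  have hfb : ∀ A, f A ≠ 0 → A ∈ ball F S (k + r) := by
    intro A hA
    obtain ⟨j, hj, h1⟩ := Finset.exists_ne_zero_of_sum_ne_zero hA
    have h2 : A ∈ ball F S j := by
      by_contra hc
      exact h1 (if_neg hc)
    exact ball_mono F S (by rw [mem_Ico] at hj; omega) h2
  have h1 := hstar f (fun A hA => hcardball _ A (hfb A hA)) (fun A => by
    by_contra hc
    push Not at hc
    obtain ⟨m, hm1, hr1⟩ := reach_of_mem_ball (hfb A hc.1)
    obtain ⟨n, hn1, hr2⟩ := reach_of_mem_ball (hfb Aᶜ hc.2)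
    have h3 := hr2.mirror hm hS
    rw [compl_compl] at h3
    exact hk (m + n) (by omega) (hr1.trans h3))
  -- the right hand side
  have h2 : ∑ C ∈ univ.filter (fun C : Finset E => C.card + 1 = r),
      ‖∑ a ∈ Cᶜ, f (insert a C)‖ ^ 2 ≤ r ^ 2 * (mass F S (k + r) - mass F S k) := by
    have g1 : ∀ C ∈ univ.filter (fun C : Finset E => C.card + 1 = r),
        ‖∑ a ∈ Cᶜ, f (insert a C)‖ ^ 2 ≤ r * ∑ a ∈ Cᶜ, (∑ j ∈ Finset.Ico k (k + r),
          (if insert a C ∈ ball F S (j + 1) ∧ insert a C ∉ ball F S j then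
            ‖F (insert a C)‖ ^ 2 else 0)) := by
      intro C hC
      rw [mem_filter] at hC
      have hCc : Cᶜ.card = r + 1 := by
        rw [card_compl, hE]
        omega
      rw [hf]
      simp only
      rw [sq_sum k r (hF C hC.2), Finset.sum_comm (s := Cᶜ), Finset.mul_sum]
      exact Finset.sum_le_sum fun j _ => sphere_bound j r hCc (hF C hC.2)
    refine (Finset.sum_le_sum g1).trans ?_
    rw [← Finset.mul_sum, sum_cliques r (fun A => ∑ j ∈ Finset.Ico k (k + r),
          (if A ∈ ball F S (j + 1) ∧ A ∉ ball F S j then ‖F A‖ ^ 2 else 0)), ← mul_assoc, ← sq]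
    refine le_of_eq ?_
    congr 1
    rw [Finset.sum_comm]
    have g2 : ∀ j, ∑ A ∈ univ.filter (fun A : Finset E => A.card = r),
        (if A ∈ ball F S (j + 1) ∧ A ∉ ball F S j then ‖F A‖ ^ 2 else 0) =
        mass F S (j + 1) - mass F S j := by
      intro j
      rw [eq_sub_iff_add_eq]
      have g3 : ∀ i, mass F S i = ∑ A ∈ univ.filter (fun A : Finset E => A.card = r),
          (if A ∈ ball F S i then ‖F A‖ ^ 2 else 0) := by
        intro i
        rw [mass, ← Finset.sum_filter]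
        refine Finset.sum_congr ?_ fun _ _ => rfl
        ext A
        simp only [mem_filter, mem_univ, true_and]
        exact ⟨fun h => ⟨hcardball i A h, h⟩, fun h => h.2⟩
      rw [g3, g3, ← Finset.sum_add_distrib]
      refine Finset.sum_congr rfl fun A _ => ?_
      by_cases h4 : A ∈ ball F S j
      · rw [if_neg (fun h => h.2 h4), if_pos h4, if_pos (ball_mono_succ F S j h4), zero_add]
      · by_cases h5 : A ∈ ball F S (j + 1)
        · rw [if_pos ⟨h5, h4⟩, if_neg h4, if_pos h5, add_zero]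
        · rw [if_neg (fun h => h5 h.1), if_neg h4, if_neg h5, add_zero]
    rw [Finset.sum_congr rfl fun j _ => g2 j]
    rw [Finset.sum_Ico_eq_sum_range, Nat.add_sub_cancel_left]
    exact Finset.sum_range_sub (fun i => mass F S (k + i)) r
  -- the left hand side
  have h3 : r ^ 2 * mass F S k ≤ ∑ A ∈ univ.filter (fun A : Finset E => A.card = r),
      ‖f A‖ ^ 2 := by
    rw [mass, Finset.mul_sum]
    refine (Finset.sum_le_sum (g := fun A => ‖f A‖ ^ 2) fun A hA => ?_).trans
      (Finset.sum_le_sum_of_subset_of_nonneg ?_ fun _ _ _ => by positivity)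
    · have g4 : f A = r * F A := by
        rw [hf]
        simp only
        have g5 : ∀ j ∈ Finset.Ico k (k + r), cut F S j A = F A := fun j hj =>
          if_pos (ball_mono F S (mem_Ico.1 hj).1 hA)
        rw [Finset.sum_congr rfl g5]
        rw [Finset.sum_const, Nat.card_Ico, nsmul_eq_mul]
        congr 2
        omega
      rw [g4, norm_mul, Complex.norm_natCast, mul_pow]
    · intro A hA
      exact mem_filter.2 ⟨mem_univ _, hcardball k A hA⟩
  have h4 : (r : ℝ) ^ 2 * mass F S k ≤ r ^ 2 * (mass F S (k + r) - mass F S k) :=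
    h3.trans (h1.trans h2)
  have h5 : (0 : ℝ) < (r : ℝ) ^ 2 := by positivity
  have h6 := le_of_mul_le_mul_left h4 h5
  linarith

/-- **The length bound.** -/
theorem length_bound {F : Finset E → ℂ} {S : Finset E} {r : ℕ} (hSr : S.card = r)
    (hE : Fintype.card E = 2 * r)
    (hF : ∀ C, C.card + 1 = r → ∑ a ∈ Cᶜ, F (insert a C) = 0)
    (hm : ∀ A, F A ≠ 0 → F Aᶜ ≠ 0)
    (hstar : ∀ f : Finset E → ℂ, (∀ A, f A ≠ 0 → A.card = r) → (∀ A, f A = 0 ∨ f Aᶜ = 0) →
      ∑ A ∈ univ.filter (fun A : Finset E => A.card = r), ‖f A‖ ^ 2 ≤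
        ∑ C ∈ univ.filter (fun C : Finset E => C.card + 1 = r), ‖∑ a ∈ Cᶜ, f (insert a C)‖ ^ 2)
    (hS : F S ≠ 0) (s : ℕ) (hs : ∀ A, A.card = r → ‖F A‖ ^ 2 ≤ 2 ^ s * ‖F S‖ ^ 2) :
    ∃ n ≤ 2 * r * (2 * r + s), ∃ p : ℕ → Finset E, p 0 = S ∧ p n = Sᶜ ∧
      ∀ i < n, Step F (p i) (p (i + 1)) := by
  rcases Nat.eq_zero_or_pos r with h0 | hr
  · subst h0
    have h1 : S = ∅ := card_eq_zero.1 hSr
    have h2 : (Sᶜ : Finset E) = ∅ := by
      rw [← card_eq_zero, card_compl, hE, hSr]
    exact ⟨0, by omega, fun _ => S, rfl, by rw [h2, h1], by simp⟩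
  suffices h : ∃ n ≤ 2 * r * (2 * r + s), Reach F n S Sᶜ by
    obtain ⟨n, hn, h⟩ := h
    exact ⟨n, hn, h.fn⟩
  by_contra hcon
  push Not at hcon
  have key : ∀ m ≤ 2 * r + s, 2 ^ m * ‖F S‖ ^ 2 ≤ mass F S (m * r) := by
    intro m
    induction m with
    | zero =>
      intro _
      simp [mass, ball]
    | succ m ih =>
      intro hm'
      have h1 := ih (by omega)
      have h2 := doubling hr hSr hE hF hm hstar hS (m * r) (fun n hn => by
        refine hcon n (hn.trans ?_)
        have h3 : (m + 1) * r ≤ (2 * r + s) * r := Nat.mul_le_mul_right r hm'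
        nlinarith)
      have h3 : (m + 1) * r = m * r + r := by ring
      rw [h3, pow_succ]
      linarith
  have h1 := key (2 * r + s) le_rfl
  have h2 : mass F S ((2 * r + s) * r) ≤
      ∑ A ∈ Finset.powersetCard r (univ : Finset E), (2 ^ s * ‖F S‖ ^ 2) := by
    rw [mass]
    refine (Finset.sum_le_sum_of_subset_of_nonneg (t := Finset.powersetCard r (univ : Finset E))
      ?_ fun _ _ _ => by positivity).trans (Finset.sum_le_sum fun A hA => hs A ?_)
    · intro A hA
      obtain ⟨m, _, h⟩ := reach_of_mem_ball hA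
      exact mem_powersetCard.2 ⟨subset_univ _, by rw [h.card, hSr]⟩
    · exact (mem_powersetCard.1 hA).2
  rw [Finset.sum_const, card_powersetCard, card_univ, hE, nsmul_eq_mul] at h2
  have h3 : ((2 * r).choose r : ℝ) < 2 ^ (2 * r) := by
    have h4 : (2 * r).choose r < 2 ^ (2 * r) := Nat.choose_lt_two_pow _ _ (by omega)
    exact_mod_cast h4
  have h4 : (0 : ℝ) < 2 ^ s * ‖F S‖ ^ 2 := by
    have := norm_pos_iff.2 hS
    positivity
  have h5 : (2 : ℝ) ^ (2 * r + s) * ‖F S‖ ^ 2 = 2 ^ (2 * r) * (2 ^ s * ‖F S‖ ^ 2) := by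
    rw [pow_add, mul_assoc]
  rw [h5] at h1
  have h6 := mul_lt_mul_of_pos_right h3 h4
  linarith

end Pool.Agent.H41Len
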