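import Pool.Agent.H41Len.Ball
import Pool.Agent.H2Swap.Key

/-!
# A short path in the support of a harmonic function on `r`-sets
-/

set_option autoImplicit false

namespace Pool.Agent.H41Len

open Finset

variable {E : Type*} [Fintype E] [DecidableEq E]

theorem star {r : ℕ} (hr : 0 < r) (hE : Fintype.card E = 2 * r) (f : Finset E → ℂ)
    (hf : ∀ A, f A ≠ 0 → A.card = r) (hdis : ∀ A, f A = 0 ∨ f Aᶜ = 0) :
    ∑ A ∈ univ.filter (fun A : Finset E => A.card = r), ‖f A‖ ^ 2 ≤
      ∑ C ∈ univ.filter (fun C : Finset E => C.card + 1 = r),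
        ‖∑ a ∈ Cᶜ, f (insert a C)‖ ^ 2 := by
  have hn : ∀ z : ℂ, ‖z‖ ^ 2 = z.re ^ 2 + z.im ^ 2 := by
    intro z
    rw [← Complex.normSq_eq_norm_sq, Complex.normSq_apply]
    ring
  have h1 := H2Swap.key hr hE (fun A => (f A).re)
    (fun A hA => hf A fun h => hA (by simp [h])) (fun A => by
      rcases hdis A with h | h
      · exact Or.inl (by simp [h])
      · exact Or.inr (by simp [h]))
  have h2 := H2Swap.key hr hE (fun A => (f A).im)
    (fun A hA => hf A fun h => hA (by simp [h])) (fun A => by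
      rcases hdis A with h | h
      · exact Or.inl (by simp [h])
      · exact Or.inr (by simp [h]))
  have h3 : ∑ A ∈ univ.filter (fun A : Finset E => A.card = r), ‖f A‖ ^ 2 =
      ∑ A, (f A).re ^ 2 + ∑ A, (f A).im ^ 2 := by
    rw [← Finset.sum_add_distrib, Finset.sum_filter]
    refine Finset.sum_congr rfl fun A _ => ?_
    by_cases h : A.card = r
    · rw [if_pos h, hn]
    · have h0 : f A = 0 := by
        by_contra hc
        exact h (hf A hc)
      rw [if_neg h, h0]
      simp
  have h4 : ∑ C ∈ univ.filter (fun C : Finset E => C.card + 1 = r),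
        ‖∑ a ∈ Cᶜ, f (insert a C)‖ ^ 2 =
      ∑ C, H2Swap.D (fun A => (f A).re) C ^ 2 + ∑ C, H2Swap.D (fun A => (f A).im) C ^ 2 := by
    rw [← Finset.sum_add_distrib, Finset.sum_filter]
    refine Finset.sum_congr rfl fun C _ => ?_
    by_cases h : C.card + 1 = r
    · rw [if_pos h, hn, Complex.re_sum, Complex.im_sum]
      rfl
    · have h0 : ∀ a ∈ Cᶜ, f (insert a C) = 0 := by
        intro a ha
        by_contra hc
        have := hf _ hc
        rw [card_insert_of_notMem (mem_compl.1 ha)] at this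
        exact h this
      have e1 : H2Swap.D (fun A => (f A).re) C = 0 :=
        Finset.sum_eq_zero fun a ha => by simp [h0 a ha]
      have e2 : H2Swap.D (fun A => (f A).im) C = 0 :=
        Finset.sum_eq_zero fun a ha => by simp [h0 a ha]
      rw [if_neg h, e1, e2]
      simp
  rw [h3, h4]
  exact add_le_add h1 h2

/-- The interface of `h2_swap_stub.lean`. -/
theorem short_path {r s : ℕ} (hr : 0 < r) (hE : Fintype.card E = 2 * r) (F : Finset E → ℂ)
    (hF : ∀ A, F A ≠ 0 → A.card = r) (hrel : ∀ C : Finset E, ∑ a ∈ Cᶜ, F (insert a C) = 0)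
    (S : Finset E) (hS : F S ≠ 0) (hs : ∀ A, ‖F A‖ ^ 2 ≤ 2 ^ s * ‖F S‖ ^ 2) :
    ∃ n ≤ 2 * r * (2 * r + s), ∃ c : ℕ → Finset E, c 0 = S ∧ c n = Sᶜ ∧
      ∀ i < n, F (c i) ≠ 0 ∧ F (c (i + 1)) ≠ 0 ∧
        ∃ a ∈ c i, ∃ b ∉ c i, c (i + 1) = insert b ((c i).erase a) := by
  have hm : ∀ A, F A ≠ 0 → F Aᶜ ≠ 0 := by
    intro A hA hc
    have h1 := H2Swap.mirror hr hE (fun A => (F A).re)
      (fun A hA => hF A fun h => hA (by simp [h])) (fun C => by
        have := congrArg Complex.re (hrel C)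
        rw [Complex.re_sum] at this
        exact this) A
    have h2 := H2Swap.mirror hr hE (fun A => (F A).im)
      (fun A hA => hF A fun h => hA (by simp [h])) (fun C => by
        have := congrArg Complex.im (hrel C)
        rw [Complex.im_sum] at this
        exact this) A
    simp only [hc, Complex.zero_re, Complex.zero_im, mul_zero] at h1 h2
    exact hA (Complex.ext h1 h2)
  obtain ⟨n, hn, p, h0, h1, hp⟩ := length_bound (hF S hS) hE (fun C _ => hrel C) hm
    (star hr hE) hS s (fun A _ => hs A)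
  have hne : ∀ i ≤ n, F (p i) ≠ 0 := by
    intro i hi
    rcases Nat.eq_zero_or_pos i with h | h
    · subst h
      rw [h0]
      exact hS
    · obtain ⟨j, rfl⟩ := Nat.exists_eq_succ_of_ne_zero h.ne'
      obtain ⟨_, _, _, _, _, h2⟩ := hp j (by omega)
      exact h2
  refine ⟨n, hn, p, h0, h1, fun i hi => ⟨hne i hi.le, hne (i + 1) hi, ?_⟩⟩
  obtain ⟨a, ha, c, hc, h2, _⟩ := hp i hi
  exact ⟨a, ha, c, hc, h2⟩

end Pool.Agent.H41Len
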